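import Mathlib
import Pool.Agent.helper38.VA.Spec

set_option autoImplicit false

namespace Pool.Agent.VA

open Matrix Module Pool.Agent.PR Pool.Agent.H48SL

theorem KDT_den {m k : ℕ} (M : Matrix (Fin m) (Fin k) ℚ) :
    ∃ d : ℤ, d ≠ 0 ∧ ∃ Z : Matrix (Fin m) (Fin k) ℤ, (d : ℚ) • M = cq Z := by
  classical
  obtain ⟨d, hd⟩ := IsLocalization.exist_integer_multiples_of_finite (nonZeroDivisors ℤ)
    (fun p : Fin m × Fin k => M p.1 p.2)
  refine ⟨d, nonZeroDivisors.ne_zero d.2, ?_⟩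
  choose Z hZ using hd
  refine ⟨Matrix.of (fun i j => Z (i, j)), ?_⟩
  ext i j
  have h := hZ (i, j)
  simp only [zsmul_eq_mul, algebraMap_int_eq, eq_intCast] at h
  simp only [cq, Matrix.smul_apply, Matrix.map_apply, Matrix.of_apply, smul_eq_mul, eq_intCast]
  exact h.symm

theorem KDT_cq_mul {a b c : ℕ} (A : Matrix (Fin a) (Fin b) ℤ) (B : Matrix (Fin b) (Fin c) ℤ) :
    cq (A * B) = cq A * cq B := by
  rw [cq, cq, cq, Matrix.map_mul]

theorem KDT_cq_det {a : ℕ} (A : Matrix (Fin a) (Fin a) ℤ) : (cq A).det = ((A.det : ℤ) : ℚ) := by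
  rw [cq]
  have := RingHom.map_det (Int.castRingHom ℚ) A
  simp only [eq_intCast] at this
  rw [this]
  rfl

theorem KDT (hCPN : CPN_stmt) : KDT_stmt := by
  intro n H W b R S hSI hK
  obtain ⟨R', hR⟩ := hK.ri
  obtain ⟨S', hS⟩ := hK.si
  set r := cq R with hr
  set s := cq S with hs
  set A := stdM ℚ b with hA
  set B := stdM ℚ b⁻¹ with hB
  have hAB : A * B = 1 := by
    rw [hA, hB, ← stdM_mul, mul_inv_cancel, stdM_one]
  have hBA : B * A = 1 := by
    rw [hA, hB, ← stdM_mul, inv_mul_cancel, stdM_one]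
  -- a nonzero element of `W`
  have hWne : W ≠ ⊥ := by
    intro h0
    have := hSI.two
    rw [h0, finrank_bot] at this
    omega
  obtain ⟨X, hXW, hX0⟩ := Submodule.exists_mem_ne_zero_of_ne_bot hWne
  obtain ⟨x, hx⟩ := hK.frm X hXW
  obtain ⟨x', hx'⟩ := hK.frm _ (hSI.sta X hXW)
  rw [← hr, ← hs] at hx hx'
  have hxne : x ≠ 0 := by
    intro h0
    apply hX0
    rw [hx, h0]
    simp
  have hcjX : A * (s * x * r) * B = s * x' * r := by
    rw [← hx', cj_apply, hx]
  have hx'ne : x' ≠ 0 := by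
    intro h0
    apply hX0
    have h1 : A * X * B = 0 := by rw [hx, hcjX, h0]; simp
    calc X = (B * A) * X * (B * A) := by rw [hBA]; simp
      _ = B * (A * X * B) * A := by simp only [Matrix.mul_assoc]
      _ = 0 := by rw [h1]; simp
  have hxd : x.det ≠ 0 := hK.inv x (by rw [← hr, ← hs, ← hx]; exact hXW) hxne
  have hx'd : x'.det ≠ 0 := hK.inv x' (by rw [← hr, ← hs, ← hx']; exact hSI.sta X hXW) hx'ne
  have hxu : IsUnit x.det := isUnit_iff_ne_zero.mpr hxd
  have hx'u : IsUnit x'.det := isUnit_iff_ne_zero.mpr hx'd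
  have hxx : x * x⁻¹ = 1 := Matrix.mul_nonsing_inv x hxu
  have hxx' : x⁻¹ * x = 1 := Matrix.nonsing_inv_mul x hxu
  have hx'x : x' * x'⁻¹ = 1 := Matrix.mul_nonsing_inv x' hx'u
  have hx'x' : x'⁻¹ * x' = 1 := Matrix.nonsing_inv_mul x' hx'u
  -- `A s = s α`
  set α : M2 := x' * r * A * R' * x⁻¹ with hα
  set α' : M2 := x * r * B * R' * x'⁻¹ with hα'
  have hAs : A * s = s * α := by
    calc A * s = A * s * (x * (r * R') * x⁻¹) := by rw [hR, Matrix.mul_one, hxx, Matrix.mul_one]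
      _ = A * s * (x * (r * (B * A) * R') * x⁻¹) := by rw [hBA, Matrix.mul_one]
      _ = (A * (s * x * r) * B) * A * R' * x⁻¹ := by simp only [Matrix.mul_assoc]
      _ = s * α := by rw [hcjX, hα]; simp only [Matrix.mul_assoc]
  have hcjX' : B * (s * x' * r) * A = s * x * r := by
    rw [← hcjX]
    calc B * (A * (s * x * r) * B) * A = (B * A) * (s * x * r) * (B * A) := by
          simp only [Matrix.mul_assoc]
      _ = s * x * r := by rw [hBA]; simp
  have hBs : B * s = s * α' := by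
    calc B * s = B * s * (x' * (r * R') * x'⁻¹) := by
          rw [hR, Matrix.mul_one, hx'x, Matrix.mul_one]
      _ = B * s * (x' * (r * (A * B) * R') * x'⁻¹) := by rw [hAB, Matrix.mul_one]
      _ = (B * (s * x' * r) * A) * B * R' * x'⁻¹ := by simp only [Matrix.mul_assoc]
      _ = s * α' := by rw [hcjX', hα']; simp only [Matrix.mul_assoc]
  have hcancel : ∀ {k : ℕ} (u v : Matrix (Fin 2) (Fin k) ℚ), s * u = s * v → u = v := by
    intro k u v h
    calc u = (S' * s) * u := by rw [hS, Matrix.one_mul]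
      _ = S' * (s * u) := by rw [Matrix.mul_assoc]
      _ = S' * (s * v) := by rw [h]
      _ = v := by rw [← Matrix.mul_assoc, hS, Matrix.one_mul]
  have hδ0 : A * s * x * r * B = s * x' * r := by
    rw [← hcjX]; simp only [Matrix.mul_assoc]
  clear_value α α'
  have haa : α' * α = (1 : M2) := by
    apply hcancel
    calc s * (α' * α) = (s * α') * α := by rw [← Matrix.mul_assoc]
      _ = B * s * α := by rw [← hBs]
      _ = B * (A * s) := by rw [hAs, Matrix.mul_assoc]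
      _ = s * (1 : M2) := by rw [← Matrix.mul_assoc, hBA, Matrix.one_mul, Matrix.mul_one]
  -- `r B = δ r`
  set δ : M2 := x⁻¹ * α' * x' with hδ
  have hrB : r * B = δ * r := by
    have h1 : α * x * r * B = x' * r := by
      apply hcancel
      calc s * (α * x * r * B) = (s * α) * x * r * B := by simp only [Matrix.mul_assoc]
        _ = A * s * x * r * B := by rw [← hAs]
        _ = A * (s * x * r) * B := by simp only [Matrix.mul_assoc]
        _ = s * (x' * r) := by rw [hcjX]; simp only [Matrix.mul_assoc]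
    calc r * B = (x⁻¹ * (α' * α) * x) * (r * B) := by
          rw [haa, Matrix.mul_one, hxx', Matrix.one_mul]
      _ = x⁻¹ * α' * (α * x * r * B) := by simp only [Matrix.mul_assoc]
      _ = δ * r := by rw [h1, hδ]; simp only [Matrix.mul_assoc]
  obtain ⟨c, hc⟩ : ∃ c : ℚ, c = α.det * δ.det := ⟨_, rfl⟩
  have hαd : α'.det * α.det = 1 := by
    rw [← Matrix.det_mul, haa, Matrix.det_one]
  have hαd0 : α.det ≠ 0 := right_ne_zero_of_mul_eq_one hαd
  have hα'd0 : α'.det ≠ 0 := left_ne_zero_of_mul_eq_one hαd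
  have hxi : (x⁻¹).det ≠ 0 := by
    have : (x⁻¹).det * x.det = 1 := by rw [← Matrix.det_mul, hxx', Matrix.det_one]
    exact left_ne_zero_of_mul_eq_one this
  have hδd0 : δ.det ≠ 0 := by
    rw [hδ, Matrix.det_mul, Matrix.det_mul]
    exact mul_ne_zero (mul_ne_zero hxi hα'd0) hx'd
  have hc0 : c ≠ 0 := by rw [hc]; exact mul_ne_zero hαd0 hδd0
  clear_value δ
  -- the sequence of determinants
  let F : ℤ → ℚ := fun i =>
    (S' * stdM ℚ (b ^ i) * s).det * (r * stdM ℚ (b ^ (-i)) * R').det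
  have hF0 : F 0 = 1 := by
    simp only [F, zpow_zero, neg_zero, stdM_one, Matrix.mul_one, hS, hR, Matrix.det_one, mul_one]
  have hF1 : ∀ i : ℤ, F (i + 1) = c * F i := by
    intro i
    have e1 : S' * stdM ℚ (b ^ (i + 1)) * s = (S' * stdM ℚ (b ^ i) * s) * α := by
      rw [_root_.zpow_add_one, stdM_mul]
      calc S' * (stdM ℚ (b ^ i) * stdM ℚ b) * s = S' * stdM ℚ (b ^ i) * (A * s) := by
            simp only [Matrix.mul_assoc, hA]
        _ = _ := by rw [hAs]; simp only [Matrix.mul_assoc]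
    have e2 : r * stdM ℚ (b ^ (-(i + 1))) * R' = δ * (r * stdM ℚ (b ^ (-i)) * R') := by
      have : b ^ (-(i + 1)) = b⁻¹ * b ^ (-i) := by
        rw [neg_add, add_comm, _root_.zpow_add, _root_.zpow_neg_one]
      rw [this, stdM_mul]
      calc r * (stdM ℚ b⁻¹ * stdM ℚ (b ^ (-i))) * R' = (r * B) * stdM ℚ (b ^ (-i)) * R' := by
            simp only [Matrix.mul_assoc, hB]
        _ = _ := by rw [hrB]; simp only [Matrix.mul_assoc]
    simp only [F]
    rw [e1, e2, Matrix.det_mul, Matrix.det_mul, hc]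
    ring
  have hF : ∀ i : ℤ, F i = c ^ i := by
    intro i
    induction i using Int.induction_on with
    | zero => rw [hF0, zpow_zero]
    | succ i ih => rw [hF1, ih, zpow_add_one₀ hc0]; ring
    | pred i ih =>
      have h := hF1 (-(i : ℤ) - 1)
      rw [sub_add_cancel, ih] at h
      rw [zpow_sub_one₀ hc0]
      field_simp
      rw [h]
      ring
  -- denominators
  obtain ⟨d₁, hd₁, Z₁, hZ₁⟩ := KDT_den S'
  obtain ⟨d₃, hd₃, Z₃, hZ₃⟩ := KDT_den R'
  have hc1 : c = 1 ∨ c = -1 := by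
    refine hCPN c 1 (d₁ ^ 2 * d₃ ^ 2) hc0 one_ne_zero
      (mul_ne_zero (pow_ne_zero _ hd₁) (pow_ne_zero _ hd₃)) ?_
    intro i
    refine ⟨(Z₁ * (((b ^ i : SLZ n)) : Matrix (Fin n) (Fin n) ℤ) * S).det *
      (R * (((b ^ (-i) : SLZ n)) : Matrix (Fin n) (Fin n) ℤ) * Z₃).det, ?_⟩
    rw [mul_one, ← hF i]
    rw [Int.cast_mul, Int.cast_mul, Int.cast_pow, Int.cast_pow, ← KDT_cq_det, ← KDT_cq_det, KDT_cq_mul, KDT_cq_mul, KDT_cq_mul, KDT_cq_mul, ← hZ₁, ← hZ₃,
      ← stdM_eq_cq, ← stdM_eq_cq]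
    simp only [Matrix.smul_mul, Matrix.mul_smul, Matrix.det_smul, Fintype.card_fin, F, hr, hs]
    ring
  -- the map `T`
  let T₁ : M2 →ₗ[ℚ] M2 := (LinearMap.mulLeft ℚ α) ∘ₗ (LinearMap.mulRight ℚ δ)
  have hT₁ : ∀ y, T₁ y = α * y * δ := by
    intro y
    simp [T₁, mul_assoc]
  have hTc : ∀ y : M2, cj b (s * y * r) = s * T₁ y * r := by
    intro y
    rw [cj_apply, hT₁]
    calc A * (s * y * r) * B = (A * s) * y * (r * B) := by simp only [Matrix.mul_assoc]
      _ = _ := by rw [hAs, hrB]; simp only [Matrix.mul_assoc]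
  have hTd : ∀ y : M2, (T₁ y).det = c * y.det := by
    intro y
    rw [hT₁, Matrix.det_mul, Matrix.det_mul, hc]
    ring
  refine ⟨T₁ ∘ₗ T₁, fun y => ⟨?_, ?_⟩⟩
  · rw [pow_two, cj_mul, hTc, hTc]
    rfl
  · rw [LinearMap.comp_apply, hTd, hTd]
    rcases hc1 with h | h
    · rw [h]; ring
    · rw [h]; ring

end Pool.Agent.VA
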